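import Pool.Agent.X134.KC.Main

/-!
# The constant term for the real zeros of Kac polynomials is not universal

For the mixture `½ N(0, 1 - τ) + ½ N(0, 1 + τ)` with small `τ > 0` (an admissible law with a smooth
positive density, in particular with no atom at `0`) the constant `C_ξ` is strictly larger than the
Gaussian constant.
-/

set_option autoImplicit false
open MeasureTheory ProbabilityTheory Filter Topology Set
open scoped ENNReal

namespace Pool.Agent.Results.MP_a7dd25_pr.ScaleMixtures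

/-- The polynomial `∑_{k ≤ n} c_k X^k` with the coefficients `c_0, ..., c_n`. -/
noncomputable def kacPoly {n : ℕ} (c : Fin (n + 1) → ℝ) : Polynomial ℝ :=
  ∑ k : Fin (n + 1), Polynomial.C (c k) * Polynomial.X ^ (k : ℕ)

/-- The number of real roots of a real polynomial, **counted with multiplicity** (it is `0` for the
zero polynomial). -/
noncomputable def numRoots (p : Polynomial ℝ) : ℝ := (Multiset.card p.roots : ℝ)

/-- The law of `(ξ_0, ..., ξ_n)` for i.i.d. `ξ_k` with law `μ`. -/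
noncomputable def coeffLaw (μ : Measure ℝ) (n : ℕ) : Measure (Fin (n + 1) → ℝ) :=
  Measure.pi fun _ : Fin (n + 1) => μ

/-- `μ` is the law of an admissible random variable: mean `0`, variance `1` and a finite absolute
moment of some order `2 + ε₀`, `ε₀ > 0`. -/
structure Admissible (μ : Measure ℝ) : Prop where
  prob : IsProbabilityMeasure μ
  moment : ∃ ε₀ : ℝ, 0 < ε₀ ∧ Integrable (fun x : ℝ => |x| ^ (2 + ε₀)) μ
  mean : Integrable (fun x : ℝ => x) μ ∧ ∫ x, x ∂μ = 0
  var : Integrable (fun x : ℝ => x ^ 2) μ ∧ ∫ x, x ^ 2 ∂μ = 1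

/-- `C = C_ξ` for `ξ` with the law `μ`: for every `n` the number of real roots of `P_n` is integrable,
and `E N_{P_n}(ℝ) - (2/π) log n → C`. -/
def HasConstant (μ : Measure ℝ) (C : ℝ) : Prop :=
  (∀ n : ℕ, Integrable (fun c => numRoots (kacPoly c)) (coeffLaw μ n)) ∧
  Tendsto (fun n : ℕ => ∫ c, numRoots (kacPoly c) ∂(coeffLaw μ n) - 2 / Real.pi * Real.log n) atTop (𝓝 C)

/-- The mixture of the normal laws `N(0, 1 - τ)` and `N(0, 1 + τ)` with weights `1/2`, `1/2`. -/
noncomputable def mix (τ : ℝ) : Measure ℝ :=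
  (1 / 2 : ℝ≥0∞) • gaussianReal 0 (1 - τ).toNNReal + (1 / 2 : ℝ≥0∞) • gaussianReal 0 (1 + τ).toNNReal

open Pool.Agent.X134.KC in
theorem kacPoly_eq {n : ℕ} (c : Fin (n + 1) → ℝ) : kacPoly c = Kac764.kac n (ext c) := by
  unfold kacPoly Kac764.kac
  rw [Finset.sum_range]
  refine Finset.sum_congr rfl fun k _ => ?_
  unfold Pool.Agent.X134.KC.ext
  rw [dif_pos k.2]

open Pool.Agent.X134.KC in
theorem hasConstant {μ : Measure ℝ} [IsProbabilityMeasure μ] (hμ : ∀ x, μ {x} = 0) {C : ℝ}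
    (h : Tendsto (fun n : ℕ => ∫ ω, (Kac764.nz (Kac764.kac n ω) univ : ℝ) ∂(Kac764.PP μ)
          - (2 / Real.pi) * Real.log n) atTop (𝓝 C)) : HasConstant μ C := by
  have e : ∀ n : ℕ, (fun c : Fin (n + 1) → ℝ => numRoots (kacPoly c)) = RR n := by
    intro n
    funext c
    unfold numRoots RR
    rw [kacPoly_eq]
  refine ⟨fun n => ?_, ?_⟩
  · rw [e]
    exact (RR_int μ hμ n).1
  · refine h.congr fun n => ?_
    rw [← (RR_int μ hμ n).2, e]
    rfl

open Pool.Agent.X134.KC in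
theorem admissible {τ : ℝ} (h0 : 0 ≤ τ) (h1 : τ ≤ 1) : Admissible (mix τ) where
  prob := inferInstanceAs (IsProbabilityMeasure (mixG τ))
  moment := ⟨1, one_pos, (int_mixG (τ := τ) fun v => gauss_rpow v (2 + 1) (by norm_num)).1⟩
  mean := ⟨(int_mixG (τ := τ) gauss_one).1, (std_mixG h0 h1).mean⟩
  var := ⟨(int_mixG (τ := τ) gauss_sq).1, (std_mixG h0 h1).var⟩

open Pool.Agent.X134.KC in
theorem gauss_admissible : Admissible (gaussianReal 0 1) where
  prob := inferInstance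
  moment := ⟨1, one_pos, gauss_rpow 1 (2 + 1) (by norm_num)⟩
  mean := ⟨gauss_one 1, std_gauss.mean⟩
  var := ⟨gauss_sq 1, std_gauss.var⟩

/-- **Non-universality.** There is a number `C_Gau`, the constant of the standard Gaussian law, such
that for every `0 < τ ≤ 1/8` the law `½ N(0, 1 - τ) + ½ N(0, 1 + τ)` is admissible, has no atoms at
all and has a constant `C_ξ` with `C_ξ ≥ C_Gau + (15/128) τ² - (80/π) τ³`; the right side exceeds
`C_Gau` when `0 < τ < 3π/2048`.  In particular there is an admissible law with no atom at `0` and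
with `C_ξ ≠ C_Gau`. -/
theorem result :
    ∃ Cgau : ℝ, Admissible (gaussianReal 0 1) ∧ HasConstant (gaussianReal 0 1) Cgau ∧
      (∀ τ : ℝ, 0 < τ → τ ≤ 1 / 8 → Admissible (mix τ) ∧ (∀ x, mix τ {x} = 0) ∧
        ∃ C : ℝ, HasConstant (mix τ) C ∧ Cgau + 15 / 128 * τ ^ 2 - 80 / Real.pi * τ ^ 3 ≤ C) ∧
      (∀ τ : ℝ, 0 < τ → τ < 3 * Real.pi / 2048 → Admissible (mix τ) ∧ mix τ {0} = 0 ∧
        ∃ C : ℝ, HasConstant (mix τ) C ∧ Cgau < C) ∧
      ∃ μ : Measure ℝ, Admissible μ ∧ μ {0} = 0 ∧ ∃ C : ℝ, HasConstant μ C ∧ C ≠ Cgau := by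
  have hpi := Real.pi_pos
  have hpi4 := Real.pi_le_four
  obtain ⟨L0, hL0, hC0⟩ := Kac764.Fin.main (gaussianReal 0 1) Pool.Agent.X134.KC.std_gauss
  have hz : L0 = 0 := Pool.Agent.X134.KC.L_gauss hL0
  subst hz
  have a0 : (gaussianReal 0 1).real {(0 : ℝ)} = 0 := by
    rw [Measure.real, Pool.Agent.X134.KC.gauss_atom]
    rfl
  rw [a0, zero_add, add_zero] at hC0
  have key : ∀ τ : ℝ, 0 < τ → τ ≤ 1 / 8 → Admissible (mix τ) ∧ (∀ x, mix τ {x} = 0) ∧
      ∃ C : ℝ, HasConstant (mix τ) C ∧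
        Kac764.gaussConst + 15 / 128 * τ ^ 2 - 80 / Real.pi * τ ^ 3 ≤ C := by
    intro τ h0 h1
    have hat : ∀ x, mix τ {x} = 0 := fun x => Pool.Agent.X134.KC.mixG_atom h0.le (by linarith) x
    refine ⟨admissible h0.le (by linarith), hat, ?_⟩
    have hstd : Kac764.Std (mix τ) := Pool.Agent.X134.KC.std_mixG h0.le (by linarith)
    have hmm : mix τ = Pool.Agent.X134.KC.mixL τ :=
      (Pool.Agent.X134.KC.mixL_eq h0.le (by linarith)).symm
    have : IsProbabilityMeasure (mix τ) := hstd.prob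
    obtain ⟨L, hL, hC⟩ := Kac764.Fin.main (mix τ) hstd
    have a1 : (mix τ).real {(0 : ℝ)} = 0 := by
      rw [Measure.real, hat]
      rfl
    rw [a1, zero_add] at hC
    refine ⟨_, hasConstant hat hC, ?_⟩
    rw [hmm] at hL hstd
    have := Pool.Agent.X134.KC.L_mix h0.le h1 hstd hL
    linarith
  have key2 : ∀ τ : ℝ, 0 < τ → τ < 3 * Real.pi / 2048 → Admissible (mix τ) ∧ mix τ {0} = 0 ∧
        ∃ C : ℝ, HasConstant (mix τ) C ∧ Kac764.gaussConst < C := by
    intro τ h0 h1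
    obtain ⟨k1, k2, C, k3, k4⟩ := key τ h0 (by linarith)
    refine ⟨k1, k2 0, C, k3, lt_of_lt_of_le ?_ k4⟩
    have h2 : 80 / Real.pi * τ ^ 3 < 15 / 128 * τ ^ 2 := by
      have h3 : 80 / Real.pi * τ < 15 / 128 := by
        rw [div_mul_eq_mul_div, div_lt_iff₀ hpi]
        linarith
      have h4 : 0 < τ ^ 2 := by positivity
      calc 80 / Real.pi * τ ^ 3 = (80 / Real.pi * τ) * τ ^ 2 := by ring
        _ < 15 / 128 * τ ^ 2 := mul_lt_mul_of_pos_right h3 h4
    linarith
  refine ⟨Kac764.gaussConst, gauss_admissible,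
    hasConstant (fun x => Pool.Agent.X134.KC.gauss_atom x) hC0, key, key2, ?_⟩
  obtain ⟨k1, k2, C, k3, k4⟩ := key2 (1 / 1000) (by norm_num) (by linarith [Real.pi_gt_three])
  exact ⟨mix (1 / 1000), k1, k2, C, k3, k4.ne'⟩

end Pool.Agent.Results.MP_a7dd25_pr.ScaleMixtures
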